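import Mathlib

open Set Filter Topology MeasureTheory
open scoped ENNReal InnerProductSpace

namespace Pool.Agent.Results.MP_916daf_an.No

variable {Ω : Type} [MeasurableSpace Ω] {μ : Measure Ω}

section
variable {E : Type} [NormedAddCommGroup E] [InnerProductSpace ℂ E]

/-- `a` is linear in the first and antilinear in the second argument on `V × V` -/
def Sesquilinear (V : Submodule ℂ E) (a : E → E → ℂ) : Prop :=
  ∀ u ∈ V, ∀ v ∈ V, ∀ w ∈ V, ∀ r : ℂ,
    a (r • u + v) w = r * a u w + a v w ∧ a w (r • u + v) = (starRingEnd ℂ r) * a w u + a w v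

/-- the form takes its diagonal values in a sector of half-angle `θ < π/2` -/
def Sectorial (V : Submodule ℂ E) (a : E → E → ℂ) : Prop :=
  ∃ θ : ℝ, 0 ≤ θ ∧ θ < Real.pi / 2 ∧ ∀ u ∈ V, a u u = 0 ∨ |Complex.arg (a u u)| ≤ θ

/-- the form norm -/
noncomputable def formNorm (a : E → E → ℂ) (u : E) : ℝ := √((a u u).re + ‖u‖ ^ 2)

/-- `V` is complete for the form norm -/
def Closed (V : Submodule ℂ E) (a : E → E → ℂ) : Prop :=
  ∀ u : ℕ → E, (∀ n, u n ∈ V) →
    (∀ ε > 0, ∃ N, ∀ m ≥ N, ∀ n ≥ N, formNorm a (u m - u n) < ε) →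
    ∃ v ∈ V, Tendsto (fun n => formNorm a (u n - v)) atTop (𝓝 0)

/-- `u ∈ D(A)` and `A u = h` for the operator associated with the form
(`⟪v, h⟫ = ∫ h v̄` in Mathlib's convention) -/
def OpGraph (V : Submodule ℂ E) (a : E → E → ℂ) (u h : E) : Prop :=
  u ∈ V ∧ ∀ v ∈ V, a u v = ⟪v, h⟫_ℂ

/-- `T` is the `C₀`-semigroup whose generator is `-A` -/
def Generates (V : Submodule ℂ E) (a : E → E → ℂ) (T : ℝ → E →L[ℂ] E) : Prop :=
  T 0 = 1 ∧ (∀ s t, 0 ≤ s → 0 ≤ t → T (s + t) = T s * T t) ∧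
    (∀ u, ContinuousOn (fun t => T t u) (Ici 0)) ∧
    ∀ u h, Tendsto (fun t : ℝ => (t : ℂ)⁻¹ • (T t u - u)) (𝓝[>] 0) (𝓝 (-h)) ↔ OpGraph V a u h

/-- `T` is the semigroup of a densely defined closed sectorial form -/
def IsFormSemigroup (T : ℝ → E → E) : Prop :=
  ∃ (V : Submodule ℂ E) (a : E → E → ℂ) (S : ℝ → E →L[ℂ] E), Dense (V : Set E) ∧
    Sesquilinear V a ∧ Sectorial V a ∧ Closed V a ∧ Generates V a S ∧ ∀ t u, T t u = S t u

end

/-- `L^∞`-boundedness -/
def LinfBounded (T : ℝ → Lp ℂ 2 μ → Lp ℂ 2 μ) : Prop :=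
  ∃ M : ℝ, 1 ≤ M ∧ ∀ t, 0 ≤ t → ∀ f : Lp ℂ 2 μ, MemLp f ∞ μ →
    eLpNorm (T t f) ∞ μ ≤ ENNReal.ofReal M * eLpNorm f ∞ μ

/-- admissible weights -/
def AdmissibleWeight (μ : Measure Ω) (g : Ω → ℝ) : Prop :=
  Measurable g ∧ MemLp g ∞ μ ∧ (∀ᵐ x ∂μ, 0 < g x) ∧ MemLp (fun x => 1 / g x) ∞ μ

/-- contractivity for the weight `g` -/
def WeightContractive (T : ℝ → Lp ℂ 2 μ → Lp ℂ 2 μ) (g : Ω → ℝ) : Prop :=
  ∀ t, 0 ≤ t → ∀ f : Lp ℂ 2 μ, MemLp f ∞ μ →
    eLpNorm (fun x => (g x : ℂ) * T t f x) ∞ μ ≤ eLpNorm (fun x => (g x : ℂ) * f x) ∞ μ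

abbrev H : Type := Lp ℂ 2 (Measure.count : Measure (Fin 3))

noncomputable def mk (f : Fin 3 → ℂ) : H := (MemLp.of_discrete (f := f)).toLp f

theorem mk_apply (f : Fin 3 → ℂ) (x : Fin 3) : mk f x = f x :=
  Measure.ae_count_iff.1 (MemLp.coeFn_toLp _) x

noncomputable def e : H := mk fun _ => 1

theorem inner_e (u : H) : ⟪e, u⟫_ℂ = u 0 + u 1 + u 2 := by
  rw [L2.inner_def, integral_count, Fin.sum_univ_three]
  simp [e, mk_apply]

theorem inner_ee : ⟪e, e⟫_ℂ = 3 := by
  rw [inner_e]; simp only [e, mk_apply]; norm_num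

noncomputable def J : H →L[ℂ] H := (innerSL ℂ e).smulRight e

theorem J_apply (u : H) : J u = ⟪e, u⟫_ℂ • e := rfl

noncomputable def c (t : ℝ) : ℝ := (1 - Real.exp (-3 * t)) / 3

noncomputable def T (t : ℝ) : H →L[ℂ] H := 1 - (c t : ℂ) • J

theorem T_apply (t : ℝ) (u : H) : T t u = u - ((c t : ℂ) * ⟪e, u⟫_ℂ) • e := by
  change u - (c t : ℂ) • J u = _
  rw [J_apply, smul_smul]

theorem T_val (t : ℝ) (u : H) (x : Fin 3) : T t u x = u x - c t * (u 0 + u 1 + u 2) := by
  rw [T_apply, Measure.ae_count_iff.1 (Lp.coeFn_sub _ _) x, Pi.sub_apply,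
    Measure.ae_count_iff.1 (Lp.coeFn_smul _ _) x, Pi.smul_apply, inner_e]
  simp [e, mk_apply]

noncomputable def a (u v : H) : ℂ := ⟪v, J u⟫_ℂ

theorem a_apply (u v : H) : a u v = ⟪v, J u⟫_ℂ := rfl

theorem a_diag (u : H) : a u u = ((‖⟪e, u⟫_ℂ‖ ^ 2 : ℝ) : ℂ) := by
  rw [a_apply, J_apply, inner_smul_right, ← inner_conj_symm u e, Complex.mul_conj,
    Complex.normSq_eq_norm_sq]

theorem c_bounds {t : ℝ} (ht : 0 ≤ t) : 0 ≤ c t ∧ c t ≤ 1 / 3 := by
  have h1 : Real.exp (-3 * t) ≤ 1 := Real.exp_le_one_iff.2 (by linarith)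
  have h2 := Real.exp_pos (-3 * t)
  unfold c
  constructor <;> linarith

theorem c_deriv : Tendsto (fun t : ℝ => (t : ℂ)⁻¹ * (c t : ℂ)) (𝓝[>] 0) (𝓝 1) := by
  have h1 : HasDerivAt c 1 0 := by
    have := (((hasDerivAt_id (0 : ℝ)).const_mul (-3)).exp.const_sub 1).div_const 3
    refine HasDerivAt.congr_deriv (f := c) this ?_
    simp
  have h2 := h1.tendsto_slope_zero_right
  have h3 := (Complex.continuous_ofReal.tendsto 1).comp h2
  refine h3.congr fun t => ?_
  simp [c]

theorem sup_le {f : Fin 3 → ℂ} {C : ℝ≥0∞} (h : ∀ x, ‖f x‖ₑ ≤ C) :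
    eLpNorm f ∞ (Measure.count : Measure (Fin 3)) ≤ C := by
  rw [eLpNorm_exponent_top]
  exact eLpNormEssSup_le_of_ae_enorm_bound (Eventually.of_forall h)

theorem le_sup (f : Fin 3 → ℂ) (x : Fin 3) :
    ‖f x‖ₑ ≤ eLpNorm f ∞ (Measure.count : Measure (Fin 3)) := by
  rw [eLpNorm_exponent_top]
  exact Measure.ae_count_iff.1 ae_le_eLpNormEssSup x

theorem result : ∃ (Ω : Type) (_ : MeasurableSpace Ω) (μ : Measure Ω) (_ : SigmaFinite μ)
    (T : ℝ → Lp ℂ 2 μ → Lp ℂ 2 μ), IsFormSemigroup T ∧ LinfBounded T ∧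
      ∀ g, AdmissibleWeight μ g → ¬ WeightContractive T g := by
  refine ⟨Fin 3, inferInstance, Measure.count, inferInstance, fun t u => T t u,
    ⟨⊤, a, T, by simp, fun u _ v _ w _ r => ⟨?_, ?_⟩,
    ⟨0, le_rfl, by positivity, fun u _ => Or.inr ?_⟩, ?_, ⟨?_, ?_, ?_, ?_⟩, fun _ _ => rfl⟩,
    ⟨2, by norm_num, ?_⟩, ?_⟩
  · simp only [a_apply, map_add, map_smul, inner_add_right, inner_smul_right]
  · simp only [a_apply, inner_add_left, inner_smul_left]
  · rw [a_diag, Complex.arg_ofReal_of_nonneg (by positivity), abs_zero]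
  · intro u _ hu
    have hle : ∀ w : H, ‖w‖ ≤ formNorm a w := fun w => by
      unfold formNorm
      rw [a_diag, Complex.ofReal_re]
      exact Real.le_sqrt_of_sq_le (by nlinarith [sq_nonneg ‖⟪e, w⟫_ℂ‖])
    have hc : CauchySeq u := by
      rw [Metric.cauchySeq_iff]
      intro ε hε
      obtain ⟨N, hN⟩ := hu ε hε
      exact ⟨N, fun m hm n hn => by rw [dist_eq_norm]; exact (hle _).trans_lt (hN m hm n hn)⟩
    obtain ⟨v, hv⟩ := cauchySeq_tendsto_of_complete hc
    refine ⟨v, trivial, ?_⟩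
    have hcont : Continuous (fun w : H => formNorm a w) := by
      simp only [formNorm, a_diag, Complex.ofReal_re]
      fun_prop
    have h0 : Tendsto (fun n => u n - v) atTop (𝓝 0) := tendsto_sub_nhds_zero_iff.2 hv
    have := (hcont.tendsto 0).comp h0
    simpa [formNorm, a_apply, Function.comp_def] using this
  · simp [T, c]
  · intro s t _ _
    ext1 u
    rw [mul_apply_eq_comp, T_apply, T_apply, T_apply, inner_sub_right,
      inner_smul_right, inner_ee, sub_sub, ← add_smul]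
    congr 2
    have : c (s + t) = c t + c s * (1 - c t * 3) := by
      unfold c
      rw [mul_add, Real.exp_add]; ring
    rw [this]; push_cast; ring
  · intro u
    simp only [T_apply]
    have : Continuous c := by unfold c; fun_prop
    fun_prop
  · intro u h
    have key : Tendsto (fun t : ℝ => (t : ℂ)⁻¹ • (T t u - u)) (𝓝[>] 0) (𝓝 (-(J u))) := by
      have := (c_deriv.smul_const (J u)).neg
      rw [one_smul] at this
      refine this.congr fun t => ?_
      rw [T_apply, J_apply, sub_sub_cancel_left, smul_neg, smul_smul, smul_smul, mul_assoc]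
    constructor
    · intro h1
      have := neg_injective (tendsto_nhds_unique h1 key)
      exact ⟨trivial, fun v _ => by rw [a_apply, this]⟩
    · rintro ⟨hu, h1⟩
      have : J u = h := ext_inner_left ℂ fun v => h1 v trivial
      rwa [← this]
  · intro t ht f _
    refine sup_le fun x => ?_
    have hfin : eLpNorm f ∞ (Measure.count : Measure (Fin 3)) ≠ ⊤ :=
      (MemLp.of_discrete (f := f)).eLpNorm_ne_top
    set S := (eLpNorm f ∞ (Measure.count : Measure (Fin 3))).toReal with hS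
    have hb : ∀ y, ‖f y‖ ≤ S := fun y => by
      have := ENNReal.toReal_mono hfin (le_sup f y)
      rwa [toReal_enorm] at this
    have hS0 : 0 ≤ S := ENNReal.toReal_nonneg
    rw [← ENNReal.ofReal_toReal hfin, ← ENNReal.ofReal_mul (by norm_num), ← ofReal_norm]
    refine ENNReal.ofReal_le_ofReal ?_
    rw [T_val]
    refine (norm_sub_le _ _).trans ?_
    rw [norm_mul, Complex.norm_real, Real.norm_eq_abs, abs_of_nonneg (c_bounds ht).1]
    have h3 := norm_add₃_le (a := f 0) (b := f 1) (c := f 2)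
    have h4 : c t * ‖f 0 + f 1 + f 2‖ ≤ 1 / 3 * (S + S + S) := by
      gcongr
      · exact (c_bounds ht).2
      · linarith [hb 0, hb 1, hb 2]
    linarith [hb x]
  · rintro g ⟨-, -, hpos, -⟩ hc
    have hg := Measure.ae_count_iff.1 hpos
    have hc1 : 0 < c 1 := by
      have : Real.exp (-3 * 1) < 1 := Real.exp_lt_one_iff.2 (by norm_num)
      unfold c
      exact div_pos (sub_pos.2 this) (by norm_num)
    have key : ∀ i : Fin 3, 1 / g 0 + 1 / g 1 + 1 / g 2 ≤ 2 * (1 / g i) := by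
      intro i
      let w : Fin 3 → ℝ := fun x => if x = i then 1 / g x else -(1 / g x)
      have h1 := hc 1 zero_le_one (mk fun x => (w x : ℂ)) MemLp.of_discrete
      have h2 : eLpNorm (fun x => (g x : ℂ) * (mk fun x => (w x : ℂ)) x) ∞
          (Measure.count : Measure (Fin 3)) ≤ 1 := by
        refine sup_le fun x => ?_
        rw [mk_apply, ← ofReal_norm, ENNReal.ofReal_le_one, ← Complex.ofReal_mul,
          Complex.norm_real, Real.norm_eq_abs]
        have := (hg x).ne'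
        simp only [w]
        split_ifs
        · rw [mul_one_div_cancel this]; simp
        · rw [mul_neg, mul_one_div_cancel this]; simp
      have h3 := (le_sup _ i).trans (h1.trans h2)
      rw [T_val, mk_apply, mk_apply, mk_apply, mk_apply, ← ofReal_norm,
        ENNReal.ofReal_le_one] at h3
      have h4 : |g i * (w i - c 1 * (w 0 + w 1 + w 2))| ≤ 1 := by
        rw [← Real.norm_eq_abs, ← Complex.norm_real]
        push_cast
        exact h3
      have h5 : w i = 1 / g i := if_pos rfl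
      have h6 : w 0 + w 1 + w 2 = 2 * (1 / g i) - (1 / g 0 + 1 / g 1 + 1 / g 2) := by
        fin_cases i <;> simp [w] <;> ring
      rw [h5, h6, mul_sub, mul_one_div_cancel (hg i).ne'] at h4
      have h7 := (abs_le.1 h4).2
      have h8 : 0 < g i * c 1 := mul_pos (hg i) hc1
      by_contra hcon
      push Not at hcon
      nlinarith
    have k0 := key 0
    have k1 := key 1
    have k2 := key 2
    have p0 := one_div_pos.2 (hg 0)
    have p1 := one_div_pos.2 (hg 1)
    have p2 := one_div_pos.2 (hg 2)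
    linarith

end Pool.Agent.Results.MP_916daf_an.No
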